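import Mathlib
import Pool.Agent.X101.FBL

/-!
# MP_207313_an: the free Banach lattice over `ℓ₁(2)` has the Daugavet property
-/

open Pool.Agent.X101.FBL Set
open scoped ENNReal

namespace Pool.Agent.Results.MP_207313_an.EllOneTwo

noncomputable section

/-- The Daugavet property. -/
def Daugavet (X : Type*) [NormedAddCommGroup X] [NormedSpace ℝ X] : Prop :=
  ∀ (φ : StrongDual ℝ X) (g : X),
    ‖ContinuousLinearMap.id ℝ X + φ.smulRight g‖ = 1 + ‖φ.smulRight g‖

/-- The space `ℓ₁(2)`. -/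
abbrev E1 := PiLp 1 (fun _ : Fin 2 => ℝ)

/-- unit vectors -/
def e (j : Fin 2) : E1 := PiLp.single 1 j (1 : ℝ)

/-- coordinates of functionals -/
def c (x : StrongDual ℝ E1) (j : Fin 2) : ℝ := x (e j)

lemma norm_e (j : Fin 2) : ‖e j‖ = 1 := by
  rw [PiLp.norm_eq_of_L1]
  fin_cases j <;> simp [e]

lemma apply_eq (x : StrongDual ℝ E1) (v : E1) : x v = v 0 * c x 0 + v 1 * c x 1 := by
  have h : v = v 0 • e 0 + v 1 • e 1 := by
    ext j
    fin_cases j <;> simp [e]
  conv_lhs => rw [h]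
  rw [map_add, map_smul, map_smul]
  rfl

lemma adm_iff {m : ℕ} {x : Fin m → StrongDual ℝ E1} :
    Admissible x ↔ ∀ k : Fin 2, ∑ i, |c (x i) k| ≤ 1 := by
  constructor
  · intro h k
    exact h (e k) (norm_e k).le
  · intro h v hv
    rw [PiLp.norm_eq_of_L1, Fin.sum_univ_two] at hv
    simp only [Real.norm_eq_abs] at hv
    calc ∑ i, |x i v| ≤ ∑ i, (|v 0| * |c (x i) 0| + |v 1| * |c (x i) 1|) :=
          Finset.sum_le_sum fun i _ => by
            rw [apply_eq, ← abs_mul, ← abs_mul]; exact abs_add_le _ _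
      _ = |v 0| * ∑ i, |c (x i) 0| + |v 1| * ∑ i, |c (x i) 1| := by
          rw [Finset.sum_add_distrib, Finset.mul_sum, Finset.mul_sum]
      _ ≤ |v 0| * 1 + |v 1| * 1 := add_le_add (mul_le_mul_of_nonneg_left (h 0) (abs_nonneg _))
          (mul_le_mul_of_nonneg_left (h 1) (abs_nonneg _))
      _ ≤ 1 := by linarith

/-- the functional with coordinate `a` at `k` and `b` at the other place -/
def pt (k : Fin 2) (a b : ℝ) : StrongDual ℝ E1 :=
  a • (PiLp.proj 1 (fun _ : Fin 2 => ℝ) k : StrongDual ℝ E1)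
    + b • (PiLp.proj 1 (fun _ : Fin 2 => ℝ) k.rev : StrongDual ℝ E1)

lemma c_pt (k : Fin 2) (a b : ℝ) : c (pt k a b) k = a := by
  fin_cases k <;> simp [pt, c, e, Fin.rev]

lemma c_pt' (k : Fin 2) (a b : ℝ) : c (pt k a b) k.rev = b := by
  fin_cases k <;> simp [pt, c, e, Fin.rev]

lemma c_add (x y : StrongDual ℝ E1) (k : Fin 2) : c (x + y) k = c x k + c y k := rfl

lemma c_smul (t : ℝ) (x : StrongDual ℝ E1) (k : Fin 2) : c (t • x) k = t * c x k := rfl

lemma ext_c {x y : StrongDual ℝ E1} (h : ∀ k, c x k = c y k) : x = y := by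
  ext v
  rw [apply_eq, apply_eq, h 0, h 1]

lemma rev_of_ne {j k : Fin 2} (h : j ≠ k) : j = k.rev := by
  revert j k; decide

lemma pt_eq (k : Fin 2) (x : StrongDual ℝ E1) : pt k (c x k) (c x k.rev) = x := by
  apply ext_c
  intro j
  by_cases hj : j = k
  · subst hj; exact c_pt _ _ _
  · have : j = k.rev := rev_of_ne hj
    subst this
    exact c_pt' _ _ _

lemma continuous_pt (k : Fin 2) (a : ℝ) : Continuous fun b => pt k a b := by
  unfold pt
  fun_prop

/-- an element of `FBL` from a function -/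
def toF (f : StrongDual ℝ E1 → ℝ) (h : InF f) : Free E1 := ⟨mkH f h.1, h.2⟩

lemma toF_apply (f : StrongDual ℝ E1 → ℝ) (h : InF f) (x : StrongDual ℝ E1) : (toF f h).1 x = f x := rfl

lemma inF_of (F : Free E1) : InF (fun x => F.1 x) := ⟨F.1.2, F.2⟩

lemma norm_le_F {F : Free E1} {C : ℝ} (hC : 0 ≤ C) {k : Fin 2} (h : ∀ x, |F.1 x| ≤ C * |c x k|) :
    ‖F‖ ≤ C := by
  refine norm_le_of (f := F.1) hC fun m x hx => ?_
  calc ∑ i, |F.1 (x i)| ≤ ∑ i, C * |c (x i) k| := Finset.sum_le_sum fun i _ => h _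
    _ = C * ∑ i, |c (x i) k| := (Finset.mul_sum _ _ _).symm
    _ ≤ C * 1 := mul_le_mul_of_nonneg_left (adm_iff.1 hx k) hC
    _ = C := mul_one C

lemma lat_abs (v : E1) : Lat (fun x : StrongDual ℝ E1 => |x v|) := by
  have h := Lat.sup (Lat.delta v) (Lat.smul (-1) (Lat.delta v))
  have e : (fun x : StrongDual ℝ E1 => |x v|) = delta v ⊔ (-1 : ℝ) • delta v := by
    funext x
    simp [delta, abs_eq_max_neg]
  rw [e]
  exact h

/-- the bump -/
def bump (k : Fin 2) (τ M a b : ℝ) (x : StrongDual ℝ E1) : ℝ :=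
  max (τ * c x k - M * |a * c x k.rev - b * c x k|) 0

lemma lat_bump (k : Fin 2) (τ M a b : ℝ) : Lat (bump k τ M a b) := by
  have h := Lat.sup (Lat.add (Lat.smul τ (Lat.delta (e k)))
    (Lat.smul (-M) (lat_abs (a • e k.rev - b • e k)))) (lat_zero (E := E1))
  convert h using 1
  funext x
  simp only [bump, c, delta, Pi.sup_apply, Pi.add_apply, Pi.smul_apply, smul_eq_mul, Pi.zero_apply,
    map_sub, map_smul]
  ring_nf

lemma bump_nonneg (k : Fin 2) (τ M a b : ℝ) (x : StrongDual ℝ E1) : 0 ≤ bump k τ M a b x :=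
  le_max_right _ _

lemma bump_le {k : Fin 2} {τ M a b : ℝ} (hM : 0 ≤ M) (hτ : |τ| = 1) (x : StrongDual ℝ E1) :
    bump k τ M a b x ≤ |c x k| := by
  refine max_le ?_ (abs_nonneg _)
  have h1 : τ * c x k ≤ |c x k| := by
    calc τ * c x k ≤ |τ * c x k| := le_abs_self _
      _ = |c x k| := by rw [abs_mul, hτ, one_mul]
  have h2 := mul_nonneg hM (abs_nonneg (a * c x k.rev - b * c x k))
  linarith

lemma bump_pos {k : Fin 2} {τ M a b : ℝ} (hM : 0 < M) {x : StrongDual ℝ E1}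
    (h : bump k τ M a b x ≠ 0) :
    0 < τ * c x k ∧ |a * c x k.rev - b * c x k| * M < τ * c x k := by
  have h1 : 0 < τ * c x k - M * |a * c x k.rev - b * c x k| := by
    by_contra hcon
    push Not at hcon
    exact h (max_eq_right hcon)
  have h2 := mul_nonneg hM.le (abs_nonneg (a * c x k.rev - b * c x k))
  constructor <;> linarith

lemma exists_gap (S : Finset ℝ) : ∃ κ > 0, ∀ b ∈ S, ∀ b' ∈ S, b ≠ b' → κ ≤ |b - b'| := by
  by_cases h : S.offDiag.Nonempty
  · obtain ⟨q, hq, hmin⟩ := Finset.exists_min_image S.offDiag (fun q => |q.1 - q.2|) h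
    have hq' := Finset.mem_offDiag.1 hq
    refine ⟨|q.1 - q.2|, abs_pos.2 (sub_ne_zero.2 hq'.2.2), fun b hb b' hb' hne => ?_⟩
    exact hmin (b, b') (Finset.mem_offDiag.2 ⟨hb, hb', hne⟩)
  · refine ⟨1, one_pos, fun b hb b' hb' hne => ?_⟩
    exact absurd ⟨(b, b'), Finset.mem_offDiag.2 ⟨hb, hb', hne⟩⟩ h

/-- **One step.** -/
lemma one_step (k : Fin 2) (φ : StrongDual ℝ (Free E1)) (F : Free E1)
    (hF : ∀ x, |F.1 x| ≤ |c x k|) (a s₀ : ℝ) (P : Finset (StrongDual ℝ E1)) {δ : ℝ}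
    (hδ : 0 < δ) :
    ∃ G : Free E1, (∀ x, |G.1 x| ≤ |c x k|) ∧ |φ G - φ F| ≤ δ ∧ ∃ b : ℝ, |b - s₀| ≤ δ ∧
      G.1 (pt k a b) = |a| ∧ ∀ p ∈ P, G.1 p = F.1 p := by
  classical
  set τ : ℝ := if 0 < a then 1 else -1 with hτ
  have hτ1 : |τ| = 1 := by rw [hτ]; split_ifs <;> simp
  have hτa : τ * a = |a| := by
    rw [hτ]
    split_ifs with h
    · rw [abs_of_pos h, one_mul]
    · rw [abs_of_nonpos (not_lt.1 h)]; ring
  -- the bad parameters
  set B : Finset ℝ := P.image fun p => a * c p k.rev / c p k with hB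
  obtain ⟨N, hN⟩ := exists_nat_gt (2 * ‖φ‖ / δ)
  have hinf : (Ioo s₀ (s₀ + δ) \ (B : Set ℝ)).Infinite :=
    (Ioo_infinite (by linarith)).sdiff B.finite_toSet
  obtain ⟨T, hT, hTN⟩ := hinf.exists_subset_card_eq N
  obtain ⟨κ, hκ, hgap⟩ := exists_gap (T ∪ B)
  set M : ℝ := 2 / κ with hM
  have hM0 : 0 < M := by positivity
  have hMκ : M * κ = 2 := by rw [hM]; field_simp
  -- the modifications
  have hInF : ∀ b, InF ((fun x => F.1 x) ⊔ ((2 : ℝ) • bump k τ M a b - fun x => |x (e k)|)) := fun b =>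
    (inF_of F).sup (((lat_bump k τ M a b).inF.smul 2).sub (lat_abs (e k)).inF)
  set G : ℝ → Free E1 := fun b => toF _ (hInF b) with hG
  have hGx : ∀ b x, (G b).1 x = max (F.1 x) (2 * bump k τ M a b x - |c x k|) := fun b x => rfl
  set W : ℝ → Free E1 := fun b => G b - F with hW
  have hWx : ∀ b x, (W b).1 x = max (F.1 x) (2 * bump k τ M a b x - |c x k|) - F.1 x := fun b x => rfl
  have hW0 : ∀ b x, bump k τ M a b x = 0 → (W b).1 x = 0 := by
    intro b x h
    rw [hWx, h, max_eq_left (by have := (abs_le.1 (hF x)).1; linarith), sub_self]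
  have hW1 : ∀ b x, |(W b).1 x| ≤ 2 * |c x k| := by
    intro b x
    rw [hWx, abs_of_nonneg (sub_nonneg.2 (le_max_left _ _)), sub_le_iff_le_add]
    have h1 := abs_le.1 (hF x)
    have h2 := bump_le (k := k) (a := a) (b := b) hM0.le hτ1 x
    exact max_le (by linarith [abs_nonneg (c x k)]) (by linarith)
  have hdisj : ∀ b ∈ T, ∀ b' ∈ T, b ≠ b' → ∀ x, (W b).1 x = 0 ∨ (W b').1 x = 0 := by
    intro b hb b' hb' hne x
    by_contra hcon
    push Not at hcon
    have h1 : bump k τ M a b x ≠ 0 := fun h => hcon.1 (hW0 b x h)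
    have h2 : bump k τ M a b' x ≠ 0 := fun h => hcon.2 (hW0 b' x h)
    obtain ⟨p1, q1⟩ := bump_pos hM0 h1
    obtain ⟨p2, q2⟩ := bump_pos hM0 h2
    have h3 := hgap b (Finset.mem_union_left _ hb) b' (Finset.mem_union_left _ hb') hne
    have h4 : |b - b'| * (τ * c x k) ≤ |a * c x k.rev - b * c x k| + |a * c x k.rev - b' * c x k| := by
      have e1 : τ * c x k = |c x k| := by
        rw [← abs_of_pos p1, abs_mul, hτ1, one_mul]
      rw [e1, ← abs_mul]
      have e2 : (b - b') * c x k = (a * c x k.rev - b' * c x k) - (a * c x k.rev - b * c x k) := by ring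
      rw [e2]
      calc _ ≤ |a * c x k.rev - b' * c x k| + |a * c x k.rev - b * c x k| := abs_sub _ _
        _ = _ := add_comm _ _
    have h5 : |b - b'| * (τ * c x k) * M < 2 * (τ * c x k) := by nlinarith
    have h6 : κ * (τ * c x k) * M ≤ |b - b'| * (τ * c x k) * M := by gcongr
    nlinarith
  -- the sum of the absolute values
  set Z : Free E1 := ∑ b ∈ T, (if 0 ≤ φ (W b) then (1 : ℝ) else -1) • W b with hZ
  have hφZ : φ Z = ∑ b ∈ T, |φ (W b)| := by
    rw [hZ, map_sum]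
    refine Finset.sum_congr rfl fun b _ => ?_
    rw [map_smul, smul_eq_mul]
    split_ifs with h
    · rw [one_mul, abs_of_nonneg h]
    · rw [neg_one_mul, abs_of_neg (not_le.1 h)]
  have hZx : ∀ x, Z.1 x = ∑ b ∈ T, (if 0 ≤ φ (W b) then (1 : ℝ) else -1) * (W b).1 x := by
    intro x
    let ev : Free E1 →ₗ[ℝ] ℝ :=
      { toFun := fun f => f.1 x
        map_add' := fun _ _ => rfl
        map_smul' := fun _ _ => rfl }
    have : Z.1 x = ev Z := rfl
    rw [this, hZ, map_sum]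
    rfl
  have hZn : ‖Z‖ ≤ 2 := by
    refine norm_le_F (k := k) (by norm_num) fun x => ?_
    rw [hZx]
    by_cases h : ∃ b ∈ T, (W b).1 x ≠ 0
    · obtain ⟨b, hb, hbx⟩ := h
      rw [Finset.sum_eq_single_of_mem b hb fun b' hb' hne => by
        rcases hdisj b hb b' hb' (Ne.symm hne) x with h | h
        · exact absurd h hbx
        · rw [h, mul_zero]]
      rw [abs_mul]
      have : |(if 0 ≤ φ (W b) then (1 : ℝ) else -1)| = 1 := by split_ifs <;> simp
      rw [this, one_mul]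
      exact hW1 b x
    · push Not at h
      rw [Finset.sum_eq_zero fun b hb => by rw [h b hb, mul_zero], abs_zero]
      positivity
  have hsum : ∑ b ∈ T, |φ (W b)| ≤ 2 * ‖φ‖ := by
    rw [← hφZ]
    calc φ Z ≤ |φ Z| := le_abs_self _
      _ ≤ ‖φ‖ * ‖Z‖ := φ.le_opNorm Z
      _ ≤ ‖φ‖ * 2 := mul_le_mul_of_nonneg_left hZn (norm_nonneg φ)
      _ = _ := mul_comm _ _
  obtain ⟨b, hbT, hbφ⟩ : ∃ b ∈ T, |φ (W b)| ≤ δ := by
    by_contra hcon
    push Not at hcon
    have h1 : (T.card : ℝ) * δ ≤ ∑ b ∈ T, |φ (W b)| := by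
      rw [← nsmul_eq_mul]
      exact Finset.card_nsmul_le_sum _ _ _ fun b hb => (hcon b hb).le
    rw [hTN] at h1
    rw [div_lt_iff₀ hδ] at hN
    linarith
  have hb1 := hT hbT
  refine ⟨G b, fun x => ?_, ?_, b, ?_, ?_, fun p hp => ?_⟩
  · rw [hGx]
    have h1 := abs_le.1 (hF x)
    have h2 := bump_le (k := k) (a := a) (b := b) hM0.le hτ1 x
    rw [abs_le]
    exact ⟨h1.1.trans (le_max_left _ _), max_le h1.2 (by linarith)⟩
  · rw [← map_sub]
    exact hbφ
  · rw [abs_of_pos (by linarith [hb1.1.1])]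
    linarith [hb1.1.2]
  · have h1 : bump k τ M a b (pt k a b) = |a| := by
      unfold bump
      rw [c_pt, c_pt', mul_comm b a, sub_self, abs_zero, mul_zero, sub_zero, hτa,
        max_eq_left (abs_nonneg a)]
    have h2 := abs_le.1 (hF (pt k a b))
    rw [c_pt] at h2
    rw [hGx, h1, c_pt, max_eq_right (by linarith)]
    ring
  · have h1 : bump k τ M a b p = 0 := by
      by_contra hne
      obtain ⟨p1, q1⟩ := bump_pos hM0 hne
      have hc0 : c p k ≠ 0 := by rintro h; rw [h, mul_zero] at p1; exact lt_irrefl _ p1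
      have hbp : a * c p k.rev / c p k ∈ B := Finset.mem_image_of_mem _ hp
      have hne' : a * c p k.rev / c p k ≠ b := fun h => hb1.2 (by rw [← h]; exact hbp)
      have h3 := hgap _ (Finset.mem_union_right _ hbp) b (Finset.mem_union_left _ hbT) hne'
      have e1 : τ * c p k = |c p k| := by
        rw [← abs_of_pos p1, abs_mul, hτ1, one_mul]
      have h4 : |a * c p k.rev / c p k - b| * |c p k| = |a * c p k.rev - b * c p k| := by
        rw [← abs_mul, sub_mul, div_mul_cancel₀ _ hc0]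
      have h5 : κ * |c p k| ≤ |a * c p k.rev - b * c p k| := by
        rw [← h4]; gcongr
      rw [e1] at q1 p1
      nlinarith
    rw [hGx, h1, mul_zero, zero_sub, max_eq_left (abs_le.1 (hF p)).1]

/-- **All steps.** -/
lemma all_steps (k : Fin 2) (φ : StrongDual ℝ (Free E1)) (F : Free E1)
    (hF : ∀ x, |F.1 x| ≤ |c x k|) {m : ℕ} (x : Fin m → StrongDual ℝ E1) (σ : Fin m → ℝ)
    (hσ : ∀ i, σ i = 1 ∨ σ i = -1) {δ : ℝ} (hδ : 0 < δ) (s : Finset (Fin m)) :
    ∃ G : Free E1, (∀ x, |G.1 x| ≤ |c x k|) ∧ |φ G - φ F| ≤ s.card * δ ∧ ∃ y : Fin m → ℝ,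
      ∀ i ∈ s, |y i - c (x i) k.rev| ≤ δ ∧ G.1 (pt k (c (x i) k) (y i)) = σ i * |c (x i) k| := by
  classical
  induction s using Finset.induction_on with
  | empty => exact ⟨F, hF, by simp, fun _ => 0, by simp⟩
  | insert i s hi ih =>
    obtain ⟨G, hG, hGφ, y, hy⟩ := ih
    have hcard : ((insert i s).card : ℝ) * δ = s.card * δ + δ := by
      rw [Finset.card_insert_of_notMem hi]; push_cast; ring
    by_cases ha : c (x i) k = 0
    · refine ⟨G, hG, by rw [hcard]; linarith, Function.update y i (c (x i) k.rev), fun j hj => ?_⟩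
      rcases Finset.mem_insert.1 hj with rfl | hj
      · rw [Function.update_self, sub_self, abs_zero, ha, abs_zero, mul_zero]
        refine ⟨hδ.le, ?_⟩
        have := hG (pt k 0 (c (x j) k.rev))
        rw [c_pt, abs_zero] at this
        exact abs_eq_zero.1 (le_antisymm this (abs_nonneg _))
      · have hne : j ≠ i := fun h => hi (h ▸ hj)
        rw [Function.update_of_ne hne]
        exact hy j hj
    · set P : Finset (StrongDual ℝ E1) := s.image fun j => pt k (c (x j) k) (y j) with hP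
      have hmemP : ∀ j ∈ s, pt k (c (x j) k) (y j) ∈ P := fun j hj =>
        Finset.mem_image_of_mem (fun j => pt k (c (x j) k) (y j)) hj
      rcases hσ i with h1 | h1
      · obtain ⟨G', hG', hφ', b, hb, hbv, hbP⟩ := one_step k φ G hG (c (x i) k) (c (x i) k.rev) P hδ
        refine ⟨G', hG', ?_, Function.update y i b, fun j hj => ?_⟩
        · rw [hcard]
          calc |φ G' - φ F| = |(φ G' - φ G) + (φ G - φ F)| := by ring_nf
            _ ≤ |φ G' - φ G| + |φ G - φ F| := abs_add_le _ _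
            _ ≤ _ := by linarith
        · rcases Finset.mem_insert.1 hj with rfl | hj
          · rw [Function.update_self, h1, one_mul]
            exact ⟨hb, hbv⟩
          · have hne : j ≠ i := fun h => hi (h ▸ hj)
            rw [Function.update_of_ne hne, hbP _ (hmemP j hj)]
            exact hy j hj
      · have hneg : ∀ x, |(-G).1 x| ≤ |c x k| := fun x => by
          have : (-G).1 x = -(G.1 x) := rfl
          rw [this, abs_neg]; exact hG x
        obtain ⟨G', hG', hφ', b, hb, hbv, hbP⟩ :=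
          one_step k φ (-G) hneg (c (x i) k) (c (x i) k.rev) P hδ
        have hval : ∀ x, (-G').1 x = -(G'.1 x) := fun x => rfl
        have hval' : ∀ x, (-G).1 x = -(G.1 x) := fun x => rfl
        refine ⟨-G', fun x => ?_, ?_, Function.update y i b, fun j hj => ?_⟩
        · rw [hval, abs_neg]; exact hG' x
        · rw [hcard]
          rw [map_neg] at hφ' ⊢
          calc |-φ G' - φ F| = |-(φ G' - -φ G) + (φ G - φ F)| := by ring_nf
            _ ≤ |-(φ G' - -φ G)| + |φ G - φ F| := abs_add_le _ _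
            _ ≤ _ := by rw [abs_neg]; linarith
        · rcases Finset.mem_insert.1 hj with rfl | hj
          · rw [Function.update_self, h1, hval, hbv, neg_one_mul]
            exact ⟨hb, rfl⟩
          · have hne : j ≠ i := fun h => hi (h ▸ hj)
            rw [Function.update_of_ne hne, hval, hbP _ (hmemP j hj), hval', neg_neg]
            exact hy j hj

/-! ### Duality -/

lemma posHom_F (h : Free E1) (t : ℝ) (x : StrongDual ℝ E1) (ht : 0 ≤ t) : h.1 (t • x) = t * h.1 x :=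
  h.1.2.1 t x ht

lemma two_bound {h : Free E1} (hh : ‖h‖ ≤ 1) (x y : StrongDual ℝ E1) {μ ν R : ℝ} (hμ : 0 ≤ μ)
    (hν : 0 ≤ ν) (hR : ∀ j, μ * |c x j| + ν * |c y j| ≤ R) : μ * |h.1 x| + ν * |h.1 y| ≤ R := by
  refine le_of_forall_pos_le_add fun ε hε => ?_
  have hR0 : 0 ≤ R := le_trans (by positivity) (hR 0)
  have hRε : 0 < R + ε := by linarith
  have hadm : Admissible ![(μ / (R + ε)) • x, (ν / (R + ε)) • y] := by
    rw [adm_iff]
    intro k
    rw [Fin.sum_univ_two]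
    simp only [Matrix.cons_val_zero, Matrix.cons_val_one, c_smul, abs_mul]
    rw [abs_of_nonneg (by positivity : 0 ≤ μ / (R + ε)), abs_of_nonneg (by positivity : 0 ≤ ν / (R + ε))]
    have h1 := hR k
    have e1 : μ / (R + ε) * |c x k| + ν / (R + ε) * |c y k| = (μ * |c x k| + ν * |c y k|) / (R + ε) := by
      ring
    rw [e1, div_le_one hRε]
    linarith
  have h1 := (sum_le_norm h.1 hadm).trans hh
  rw [Fin.sum_univ_two] at h1
  simp only [Matrix.cons_val_zero, Matrix.cons_val_one] at h1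
  rw [posHom_F h _ _ (by positivity), posHom_F h _ _ (by positivity), abs_mul, abs_mul,
    abs_of_nonneg (by positivity : 0 ≤ μ / (R + ε)), abs_of_nonneg (by positivity : 0 ≤ ν / (R + ε))] at h1
  have e1 : μ / (R + ε) * |h.1 x| + ν / (R + ε) * |h.1 y| = (μ * |h.1 x| + ν * |h.1 y|) / (R + ε) := by
    ring
  rw [e1, div_le_one hRε] at h1
  exact h1

lemma one_bound {h : Free E1} (hh : ‖h‖ ≤ 1) (x : StrongDual ℝ E1) {R : ℝ} (hR : ∀ j, |c x j| ≤ R) :
    |h.1 x| ≤ R := by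
  have := two_bound hh x x (μ := 1) (ν := 0) (R := R) zero_le_one le_rfl (by simpa using hR)
  simpa using this

/-- the norm is dual to domination by combinations of `|δ_0|` and `|δ_1|` -/
lemma dual_bound {h : Free E1} (hh : ‖h‖ ≤ 1) :
    ∃ l ∈ Icc (0 : ℝ) 1, ∀ x, |h.1 x| ≤ l * |c x 0| + (1 - l) * |c x 1| := by
  by_contra hcon
  push Not at hcon
  set U : Set ℝ := {l | ∃ x : StrongDual ℝ E1, |c x 1| ≤ |c x 0| ∧
    l * |c x 0| + (1 - l) * |c x 1| < |h.1 x|} with hU
  set V : Set ℝ := {l | ∃ x : StrongDual ℝ E1, |c x 0| ≤ |c x 1| ∧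
    l * |c x 0| + (1 - l) * |c x 1| < |h.1 x|} with hV
  have hop : ∀ x : StrongDual ℝ E1, IsOpen {l : ℝ | l * |c x 0| + (1 - l) * |c x 1| < |h.1 x|} :=
    fun x => isOpen_lt (by fun_prop) continuous_const
  have hUo : IsOpen U := by
    have : U = ⋃ x : {x : StrongDual ℝ E1 // |c x 1| ≤ |c x 0|},
        {l : ℝ | l * |c x.1 0| + (1 - l) * |c x.1 1| < |h.1 x.1|} := by
      ext l; simp [hU]
    rw [this]
    exact isOpen_iUnion fun x => hop _
  have hVo : IsOpen V := by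
    have : V = ⋃ x : {x : StrongDual ℝ E1 // |c x 0| ≤ |c x 1|},
        {l : ℝ | l * |c x.1 0| + (1 - l) * |c x.1 1| < |h.1 x.1|} := by
      ext l; simp [hV]
    rw [this]
    exact isOpen_iUnion fun x => hop _
  have hcov : Icc (0 : ℝ) 1 ⊆ U ∪ V := by
    intro l hl
    obtain ⟨x, hx⟩ := hcon l hl
    rcases le_total |c x 1| |c x 0| with h1 | h1
    · exact Or.inl ⟨x, h1, hx⟩
    · exact Or.inr ⟨x, h1, hx⟩
  have h1U : (1 : ℝ) ∉ U := by
    rintro ⟨x, hx1, hx2⟩
    have := one_bound hh x (R := |c x 0|) fun j => by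
      fin_cases j
      · exact le_rfl
      · exact hx1
    linarith
  have h0V : (0 : ℝ) ∉ V := by
    rintro ⟨x, hx1, hx2⟩
    have := one_bound hh x (R := |c x 1|) fun j => by
      fin_cases j
      · exact hx1
      · exact le_rfl
    linarith
  have h0U : (0 : ℝ) ∈ U := (hcov (left_mem_Icc.2 zero_le_one)).resolve_right h0V
  have h1V : (1 : ℝ) ∈ V := (hcov (right_mem_Icc.2 zero_le_one)).resolve_left h1U
  obtain ⟨l, hl, ⟨x, hx1, hx2⟩, ⟨y, hy1, hy2⟩⟩ := isPreconnected_Icc U V hUo hVo hcov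
    ⟨0, left_mem_Icc.2 zero_le_one, h0U⟩ ⟨1, right_mem_Icc.2 zero_le_one, h1V⟩
  have key := two_bound hh x y (μ := |c y 1| - |c y 0|) (ν := |c x 0| - |c x 1|)
    (R := |c x 0| * |c y 1| - |c x 1| * |c y 0|) (by linarith) (by linarith) fun j => by
      fin_cases j
      · simp only [Fin.zero_eta, Fin.isValue]; apply le_of_eq; ring
      · simp only [Fin.mk_one, Fin.isValue]; apply le_of_eq; ring
  by_cases hxx : |c x 1| = |c x 0|
  · have := one_bound hh x (R := |c x 0|) fun j => by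
      fin_cases j
      · exact le_rfl
      · exact hxx.le
    rw [hxx] at hx2
    linarith
  · have h3 : 0 < |c x 0| - |c x 1| := sub_pos.2 (lt_of_le_of_ne hx1 hxx)
    nlinarith

lemma choose_k (φ : StrongDual ℝ (Free E1)) {h : Free E1} (hh : ‖h‖ ≤ 1) {a : ℝ} (ha : a < φ h) :
    ∃ (k : Fin 2) (F : Free E1), (∀ x, |F.1 x| ≤ |c x k|) ∧ a < φ F := by
  by_cases ha0 : a < 0
  · refine ⟨0, 0, fun x => ?_, by rwa [map_zero]⟩
    have : (0 : Free E1).1 x = 0 := rfl
    rw [this, abs_zero]; exact abs_nonneg _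
  push Not at ha0
  obtain ⟨l, hl, hlx⟩ := dual_bound hh
  have hh0 : InF ((((fun x => h.1 x) : StrongDual ℝ E1 → ℝ) ⊓ l • fun x => |x (e 0)|)
      ⊔ -(l • fun x => |x (e 0)|)) :=
    ((inF_of h).inf ((lat_abs (e 0)).inF.smul l)).sup ((lat_abs (e 0)).inF.smul l).neg
  set h0 : Free E1 := toF _ hh0 with hh0'
  have h0x : ∀ x, h0.1 x = max (min (h.1 x) (l * |c x 0|)) (-(l * |c x 0|)) := fun x => rfl
  set h1 : Free E1 := h - h0 with hh1
  have h1x : ∀ x, h1.1 x = h.1 x - h0.1 x := fun x => rfl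
  have b0 : ∀ x, |h0.1 x| ≤ l * |c x 0| := by
    intro x
    have hp : 0 ≤ l * |c x 0| := mul_nonneg hl.1 (abs_nonneg _)
    rw [h0x, abs_le]
    exact ⟨le_max_right _ _, max_le (min_le_right _ _) (by linarith)⟩
  have b1 : ∀ x, |h1.1 x| ≤ (1 - l) * |c x 1| := by
    intro x
    have hp : 0 ≤ l * |c x 0| := mul_nonneg hl.1 (abs_nonneg _)
    have hq : 0 ≤ (1 - l) * |c x 1| := mul_nonneg (by linarith [hl.2]) (abs_nonneg _)
    have hb := abs_le.1 (hlx x)
    rw [h1x, h0x]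
    rcases le_total (h.1 x) (l * |c x 0|) with h2 | h2
    · rw [min_eq_left h2]
      rcases le_total (-(l * |c x 0|)) (h.1 x) with h3 | h3
      · rw [max_eq_left h3, sub_self, abs_zero]; exact hq
      · rw [max_eq_right h3, abs_le]
        constructor <;> linarith
    · rw [min_eq_right h2, max_eq_left (by linarith), abs_le]
      constructor <;> linarith
  have hsum : φ h = φ h0 + φ h1 := by rw [← map_add, hh1]; congr 1; abel
  have hzero : ∀ F : Free E1, (∀ x, |F.1 x| ≤ 0) → F = 0 := by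
    intro F hF
    apply Subtype.ext
    apply Subtype.ext
    funext x
    exact abs_eq_zero.1 (le_antisymm (hF x) (abs_nonneg _))
  have hcase : l * a < φ h0 ∨ (1 - l) * a < φ h1 := by
    by_contra hcon
    push Not at hcon
    linarith [hcon.1, hcon.2]
  rcases hcase with h2 | h2
  · have hl0 : l ≠ 0 := by
      rintro rfl
      rw [hzero h0 (fun x => by simpa using b0 x), map_zero, zero_mul] at h2
      exact lt_irrefl _ h2
    have hlp : 0 < l := lt_of_le_of_ne hl.1 (Ne.symm hl0)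
    refine ⟨0, l⁻¹ • h0, fun x => ?_, ?_⟩
    · have : (l⁻¹ • h0).1 x = l⁻¹ * h0.1 x := rfl
      rw [this, abs_mul, abs_of_pos (inv_pos.2 hlp), inv_mul_le_iff₀ hlp]
      exact b0 x
    · rw [map_smul, smul_eq_mul, ← div_eq_inv_mul, lt_div_iff₀ hlp]
      linarith
  · have hl0 : 1 - l ≠ 0 := by
      intro h3
      rw [hzero h1 (fun x => by have := b1 x; rwa [h3, zero_mul] at this), map_zero, h3, zero_mul] at h2
      exact lt_irrefl _ h2
    have hlp : 0 < 1 - l := lt_of_le_of_ne (by linarith [hl.2]) (Ne.symm hl0)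
    refine ⟨1, (1 - l)⁻¹ • h1, fun x => ?_, ?_⟩
    · have : ((1 - l)⁻¹ • h1).1 x = (1 - l)⁻¹ * h1.1 x := rfl
      rw [this, abs_mul, abs_of_pos (inv_pos.2 hlp), inv_mul_le_iff₀ hlp]
      exact b1 x
    · rw [map_smul, smul_eq_mul, ← div_eq_inv_mul, lt_div_iff₀ hlp]
      linarith

/-- near optimal families for the norm -/
lemma exists_family (g : Free E1) {ε : ℝ} (hε : 0 < ε) : ∃ (m : ℕ) (x : Fin m → StrongDual ℝ E1),
    Admissible x ∧ ‖g‖ - ε < ∑ i, |g.1 (x i)| := by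
  by_cases hg : ‖g‖ = 0
  · refine ⟨0, Fin.elim0, fun v _ => by simp, ?_⟩
    simp [hg, hε]
  · have hg' : 0 < ‖g‖ := lt_of_le_of_ne (norm_nonneg g) (Ne.symm hg)
    apply exists_of_lt_fnorm
    have : fnorm (fun x => g.1 x) = ENNReal.ofReal ‖g‖ := (ENNReal.ofReal_toReal g.1.2.2.ne).symm
    rw [this]
    exact (ENNReal.ofReal_lt_ofReal_iff hg').2 (by linarith)

/-- **The main estimate.** -/
lemma main_est (φ : StrongDual ℝ (Free E1)) (g : Free E1) {ε : ℝ} (hε : 0 < ε) :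
    1 + ‖φ‖ * ‖g‖ ≤ ‖ContinuousLinearMap.id ℝ (Free E1) + φ.smulRight g‖
      + ε * (‖ContinuousLinearMap.id ℝ (Free E1) + φ.smulRight g‖ + 2 * ‖φ‖ + 2 * ‖g‖) := by
  set L := ‖ContinuousLinearMap.id ℝ (Free E1) + φ.smulRight g‖ with hL
  have hA : 0 ≤ ‖φ‖ := norm_nonneg φ
  have hGn : 0 ≤ ‖g‖ := norm_nonneg g
  -- a point of the ball
  obtain ⟨h, hh, hφh⟩ : ∃ h : Free E1, ‖h‖ ≤ 1 ∧ ‖φ‖ - ε < φ h := by
    by_contra hcon
    push Not at hcon
    have h1 : ‖φ‖ ≤ max (‖φ‖ - ε) 0 := by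
      refine ContinuousLinearMap.opNorm_le_of_unit_norm (le_max_right _ _) fun x hx => ?_
      rw [Real.norm_eq_abs, abs_le]
      have h2 := hcon x hx.le
      have h3 := hcon (-x) (by rw [norm_neg]; exact hx.le)
      rw [map_neg] at h3
      constructor
      · linarith [le_max_left (‖φ‖ - ε) 0]
      · exact h2.trans (le_max_left _ _)
    rcases le_total (‖φ‖ - ε) 0 with h2 | h2
    · rw [max_eq_right h2] at h1
      have h3 := hcon 0 (by simp)
      rw [map_zero] at h3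
      linarith
    · rw [max_eq_left h2] at h1
      linarith
  obtain ⟨k, F, hF, hφF⟩ := choose_k φ hh hφh
  obtain ⟨m, x₀, hx₀, hsum₀⟩ := exists_family g hε
  -- the extended family
  have hk0 : ∑ i, |c (x₀ i) k| ≤ 1 := adm_iff.1 hx₀ k
  set x : Fin (m + 1) → StrongDual ℝ E1 := Fin.cons (pt k (1 - ∑ i, |c (x₀ i) k|) 0) x₀ with hx
  have hxk : ∑ i, |c (x i) k| = 1 := by
    rw [Fin.sum_univ_succ]
    simp only [hx, Fin.cons_zero, Fin.cons_succ, c_pt]
    rw [abs_of_nonneg (by linarith)]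
    ring
  have hxr : ∑ i, |c (x i) k.rev| ≤ 1 := by
    rw [Fin.sum_univ_succ]
    simp only [hx, Fin.cons_zero, Fin.cons_succ, c_pt']
    rw [abs_zero, zero_add]
    exact adm_iff.1 hx₀ k.rev
  have hgs : ‖g‖ - ε < ∑ i, |g.1 (x i)| := by
    rw [Fin.sum_univ_succ]
    simp only [hx, Fin.cons_zero, Fin.cons_succ]
    linarith [abs_nonneg (g.1 (pt k (1 - ∑ i, |c (x₀ i) k|) 0))]
  have hxadm : Admissible x := by
    rw [adm_iff]
    intro j
    by_cases hj : j = k
    · rw [hj]; exact hxk.le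
    · have : j = k.rev := rev_of_ne hj
      rw [this]; exact hxr
  have hgs2 : ∑ i, |g.1 (x i)| ≤ ‖g‖ := sum_le_norm g.1 hxadm
  set σ : Fin (m + 1) → ℝ := fun i => if 0 ≤ g.1 (x i) then 1 else -1 with hσ
  have hσ1 : ∀ i, σ i = 1 ∨ σ i = -1 := fun i => by
    simp only [hσ]; split_ifs <;> simp
  have hσg : ∀ i, σ i * g.1 (x i) = |g.1 (x i)| := fun i => by
    simp only [hσ]
    split_ifs with h1
    · rw [one_mul, abs_of_nonneg h1]
    · rw [neg_one_mul, abs_of_neg (not_le.1 h1)]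
  -- continuity
  have hm1 : (0 : ℝ) < m + 1 := by positivity
  have hcont : ∀ i, ∃ d > 0, ∀ b, |b - c (x i) k.rev| ≤ d →
      |g.1 (pt k (c (x i) k) b) - g.1 (x i)| ≤ ε / (m + 1) := by
    intro i
    have h1 : Continuous fun b => g.1 (pt k (c (x i) k) b) :=
      (inF_of g).continuous.comp (continuous_pt k _)
    obtain ⟨d, hd, hd'⟩ := Metric.continuous_iff.1 h1 (c (x i) k.rev) (ε / (m + 1)) (by positivity)
    refine ⟨d / 2, by positivity, fun b hb => ?_⟩
    have h2 := hd' b (by rw [Real.dist_eq]; linarith)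
    simp only [pt_eq, Real.dist_eq] at h2
    exact h2.le
  choose d hd hd' using hcont
  set δ : ℝ := min (ε / (m + 1)) (Finset.univ.inf' Finset.univ_nonempty d) with hδ
  have hδ0 : 0 < δ := by
    refine lt_min (by positivity) ?_
    rw [Finset.lt_inf'_iff]
    exact fun i _ => hd i
  have hδd : ∀ i, δ ≤ d i := fun i => (min_le_right _ _).trans (Finset.inf'_le _ (Finset.mem_univ i))
  have hδε : (m + 1) * δ ≤ ε := by
    have : δ ≤ ε / (m + 1) := min_le_left _ _
    rw [le_div_iff₀ hm1] at this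
    linarith
  obtain ⟨G, hG, hGφ, y, hy⟩ := all_steps k φ F hF x σ hσ1 hδ0 Finset.univ
  rw [Finset.card_univ, Fintype.card_fin] at hGφ
  push_cast at hGφ
  have hGn1 : ‖G‖ ≤ 1 := norm_le_F zero_le_one (k := k) fun x => by rw [one_mul]; exact hG x
  have hφG1 : ‖φ‖ - 2 * ε ≤ φ G := by
    have := (abs_le.1 hGφ).1
    linarith
  have hφG2 : |φ G| ≤ ‖φ‖ := by
    calc |φ G| ≤ ‖φ‖ * ‖G‖ := φ.le_opNorm G
      _ ≤ ‖φ‖ * 1 := mul_le_mul_of_nonneg_left hGn1 hA
      _ = _ := mul_one _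
  -- the perturbed family
  have hε1 : 0 < 1 + ε := by linarith
  have hzadm : Admissible fun i => (1 + ε)⁻¹ • pt k (c (x i) k) (y i) := by
    rw [adm_iff]
    intro j
    simp only [c_smul, abs_mul]
    rw [abs_of_pos (inv_pos.2 hε1), ← Finset.mul_sum, inv_mul_le_iff₀ hε1, mul_one]
    by_cases hj : j = k
    · rw [hj]
      simp only [c_pt]
      linarith
    · have : j = k.rev := rev_of_ne hj
      rw [this]
      simp only [c_pt']
      calc ∑ i, |y i| ≤ ∑ i, (|c (x i) k.rev| + δ) := Finset.sum_le_sum fun i _ => by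
            have h1 := (hy i (Finset.mem_univ i)).1
            have h2 := abs_sub_abs_le_abs_sub (y i) (c (x i) k.rev)
            linarith
        _ = ∑ i, |c (x i) k.rev| + (m + 1) * δ := by
            rw [Finset.sum_add_distrib, Finset.sum_const, Finset.card_univ, Fintype.card_fin,
              nsmul_eq_mul]
            push_cast
            ring
        _ ≤ 1 + ε := by linarith
  set R : Free E1 := (ContinuousLinearMap.id ℝ (Free E1) + φ.smulRight g) G with hR
  have hRx : ∀ z, R.1 z = G.1 z + φ G * g.1 z := fun z => rfl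
  have hRn : ‖R‖ ≤ L := by
    calc ‖R‖ ≤ L * ‖G‖ := ContinuousLinearMap.le_opNorm _ G
      _ ≤ L * 1 := mul_le_mul_of_nonneg_left hGn1
          (norm_nonneg (ContinuousLinearMap.id ℝ (Free E1) + φ.smulRight g))
      _ = L := mul_one _
  have h1 := (sum_le_norm R.1 hzadm).trans hRn
  have h2 : ∀ i, R.1 ((1 + ε)⁻¹ • pt k (c (x i) k) (y i))
      = (1 + ε)⁻¹ * R.1 (pt k (c (x i) k) (y i)) := fun i => posHom_F R _ _ (inv_pos.2 hε1).le
  simp_rw [h2, abs_mul] at h1
  rw [abs_of_pos (inv_pos.2 hε1), ← Finset.mul_sum, inv_mul_le_iff₀ hε1] at h1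
  have h3 : ∀ i, |c (x i) k| + φ G * |g.1 (x i)| - ‖φ‖ * (ε / (m + 1))
      ≤ |R.1 (pt k (c (x i) k) (y i))| := by
    intro i
    obtain ⟨hy1, hy2⟩ := hy i (Finset.mem_univ i)
    have h4 := hd' i (y i) (hy1.trans (hδd i))
    have hσσ : σ i * σ i = 1 := by rcases hσ1 i with h | h <;> rw [h] <;> norm_num
    have hσa : |σ i| = 1 := by rcases hσ1 i with h | h <;> rw [h] <;> simp
    have h5 : σ i * R.1 (pt k (c (x i) k) (y i)) = |c (x i) k| + φ G * |g.1 (x i)|
        + φ G * (σ i * (g.1 (pt k (c (x i) k) (y i)) - g.1 (x i))) := by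
      rw [hRx, hy2, ← hσg i]
      linear_combination (|c (x i) k|) * hσσ
    have h6 : -(‖φ‖ * (ε / (m + 1))) ≤ φ G * (σ i * (g.1 (pt k (c (x i) k) (y i)) - g.1 (x i))) := by
      have h7 : |φ G * (σ i * (g.1 (pt k (c (x i) k) (y i)) - g.1 (x i)))| ≤ ‖φ‖ * (ε / (m + 1)) := by
        rw [abs_mul, abs_mul, hσa, one_mul]
        exact mul_le_mul hφG2 h4 (abs_nonneg _) hA
      exact (abs_le.1 h7).1
    have h8 : σ i * R.1 (pt k (c (x i) k) (y i)) ≤ |R.1 (pt k (c (x i) k) (y i))| := by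
      calc _ ≤ |σ i * R.1 (pt k (c (x i) k) (y i))| := le_abs_self _
        _ = _ := by rw [abs_mul, hσa, one_mul]
    linarith
  have h4 := Finset.sum_le_sum fun i (_ : i ∈ Finset.univ) => h3 i
  rw [Finset.sum_sub_distrib, Finset.sum_add_distrib, ← Finset.mul_sum, hxk, Finset.sum_const,
    Finset.card_univ, Fintype.card_fin, nsmul_eq_mul] at h4
  have h5 : ((m + 1 : ℕ) : ℝ) * (‖φ‖ * (ε / (m + 1))) = ‖φ‖ * ε := by
    push_cast
    field_simp
  rw [h5] at h4
  set S := ∑ i, |g.1 (x i)| with hS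
  have h6 : ‖φ‖ * ‖g‖ - ‖φ‖ * ε - 2 * ε * ‖g‖ ≤ φ G * S := by
    have hθ : 0 ≤ ‖φ‖ - φ G := by linarith [(abs_le.1 hφG2).2]
    have hη : 0 ≤ ‖g‖ - S := by linarith
    have h7 : φ G * S = ‖φ‖ * ‖g‖ - ‖φ‖ * (‖g‖ - S) - (‖φ‖ - φ G) * ‖g‖
        + (‖φ‖ - φ G) * (‖g‖ - S) := by ring
    have h8 : ‖φ‖ * (‖g‖ - S) ≤ ‖φ‖ * ε := mul_le_mul_of_nonneg_left (by linarith) hA
    have h9 : (‖φ‖ - φ G) * ‖g‖ ≤ 2 * ε * ‖g‖ := mul_le_mul_of_nonneg_right (by linarith) hGn
    have h10 := mul_nonneg hθ hη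
    rw [h7]
    linarith
  linarith

/-- **The free Banach lattice over `ℓ₁(2)` has the Daugavet property.** -/
theorem result : Daugavet (Free E1) := by
  intro φ g
  apply le_antisymm
  · have h1 : ‖ContinuousLinearMap.id ℝ (Free E1)‖ ≤ 1 := ContinuousLinearMap.norm_id_le
    have h2 := norm_add_le (ContinuousLinearMap.id ℝ (Free E1)) (φ.smulRight g)
    linarith
  · have hn : ‖φ.smulRight g‖ = ‖φ‖ * ‖g‖ := ContinuousLinearMap.norm_smulRight_apply φ g
    rw [hn]
    set L := ‖ContinuousLinearMap.id ℝ (Free E1) + φ.smulRight g‖ with hL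
    have hL0 : 0 ≤ L := norm_nonneg (ContinuousLinearMap.id ℝ (Free E1) + φ.smulRight g)
    have hA : 0 ≤ ‖φ‖ := norm_nonneg φ
    have hG : 0 ≤ ‖g‖ := norm_nonneg g
    refine le_of_forall_pos_le_add fun ε hε => ?_
    have hD : 0 < L + 2 * ‖φ‖ + 2 * ‖g‖ + 1 := by linarith
    have h1 := main_est φ g (ε := ε / (L + 2 * ‖φ‖ + 2 * ‖g‖ + 1)) (by positivity)
    rw [← hL] at h1
    refine h1.trans ?_
    have h2 : ε / (L + 2 * ‖φ‖ + 2 * ‖g‖ + 1) * (L + 2 * ‖φ‖ + 2 * ‖g‖) ≤ ε := by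
      rw [div_mul_eq_mul_div, div_le_iff₀ hD]
      nlinarith
    linarith

end

end Pool.Agent.Results.MP_207313_an.EllOneTwo
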